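import Pool.Agent.H64.STAT.Rows

/-!
# Row MCR: prefixes and shifts of chains
-/

set_option autoImplicit false

namespace Pool.STAT

open Finset
open Pool.Agent.H49.Ent Pool.Agent.H32.Dense Pool.STK Pool.KS3
open Pool.BFL (Pl CB Pb P2 MC alt)

/-- A prefix of a chain is a chain. -/
theorem MC_prefix {Ω C W : Type} [Fintype Ω] [Fintype W] {p : Ω → ℝ} {c : ℕ → Ω → C} {M : ℕ}
    {q : W → ℝ} {z : ℕ → W → Ω} (h : MC p c M q z) {M' : ℕ} (hM : M' ≤ M) : MC p c M' q z := by
  refine ⟨h.isLaw, fun i hi => h.marg i (hi.trans hM), fun w hw i hi =>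
    h.same w hw i (hi.trans_le hM), fun i hi => ?_, fun i hi => h.pair i (hi.trans_le hM)⟩
  refine (h.markov i (hi.trans_le hM)).mono_left h.isLaw.nonneg ?_
  intro w w' _ _ e
  have e1 := (Prod.ext_iff.mp e).1
  funext k
  have hk := k.2
  exact congrFun e1 ⟨k, by omega⟩

/-- A shift of a chain. -/
theorem MC_shift {Ω C W : Type} [Fintype Ω] [Fintype W] {p : Ω → ℝ} {c : ℕ → Ω → C} {M : ℕ}
    {q : W → ℝ} {z : ℕ → W → Ω} (h : MC p c M q z) {k : ℕ} (hk : k ≤ M) :
    MC p (fun i => c (i + k)) (M - k) q (fun i => z (i + k)) := by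
  refine ⟨h.isLaw, fun i hi => h.marg (i + k) (by omega), fun w hw i hi => ?_, fun i hi => ?_,
    fun i hi A => ?_⟩
  · have h1 := h.same w hw (i + k) (by omega)
    have e : i + k + 1 = i + 1 + k := by omega
    rw [e] at h1
    exact h1
  · have h1 := h.markov (i + k) (by omega)
    refine ((h1.mono_left h.isLaw.nonneg ?_).symm h.isLaw.nonneg |>.mono_left
      h.isLaw.nonneg ?_).symm h.isLaw.nonneg
    · intro w w' _ _ e
      have e1 := (Prod.ext_iff.mp e).1
      funext l
      have hl := l.2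
      have e2 := congrFun e1 (⟨l, by omega⟩ : Fin (M - (i + k)))
      have e3 : i + k + 1 + (l : ℕ) = i + 1 + (l : ℕ) + k := by omega
      change z (i + k + 1 + (l : ℕ)) w = z (i + k + 1 + (l : ℕ)) w' at e2
      rw [e3] at e2
      exact e2
    · intro w w' _ _ e
      have e1 := (Prod.ext_iff.mp e).1
      funext l
      have hl := l.2
      have e2 := congrFun e1 (⟨l + k, by omega⟩ : Fin (i + k + 1))
      exact e2
  · have h1 := h.pair (i + k) (by omega) A
    have e : i + k + 1 = i + 1 + k := by omega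
    rw [e] at h1
    exact h1

theorem alt_add {Ω G B : Type} (g : Ω → G) (bk : Ω → B) (i k : ℕ) :
    alt g bk (i + 2 * k) = alt g bk i := by
  funext ω
  unfold alt
  rw [Nat.add_mul_mod_self_left]

/-- **Row MCR.** -/
theorem mcr_thm : McrStmt := by
  intro Ω G B W _ _ p g bk M q z _ h
  refine ⟨fun M' hM' => MC_prefix h hM', fun k hk => ?_⟩
  have h1 := MC_shift h hk
  have e : (fun i => alt g bk (i + 2 * k)) = alt g bk := funext fun i => alt_add g bk i k
  rw [e] at h1
  exact h1

end Pool.STAT
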